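import Mathlib

/-!
# MP_6e7624_al: the divisibility poset of the ideal class monoid of a numerical semigroup

For numerical semigroups `S₁`, `S₂`: if the posets `(Cl(S₁), ⪯)` and `(Cl(S₂), ⪯)` are isomorphic,
then `S₁ = S₂`.

Proof.  The length of a longest strictly increasing `⪯`-chain starting at the class of a normalised
ideal `E` (minimum `0`) is `|ℕ \ E|`; so the number `D_j(S)` of normalised ideals missing exactly
`j` naturals is an invariant of the poset.  If `x` is the least element of the symmetric difference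
of `S` and `T`, say `x ∈ S`, `x ∉ T`, and `j = |S ∩ [0,x)| = |T ∩ [0,x)|`, then every down-closed
set of size `j` for `S` is one for `T`, but `{x - t : t ∈ T, t ≤ x}` is one for `T` and not for `S`;
hence `D_j(S) < D_j(T)`.
-/

namespace Pool.Agent.Results.MP_6e7624_al.PosetDeterminesSemigroup

open Pointwise

/-- An ideal of the submonoid `S` of `ℕ`: a non-empty set `E ⊆ ℤ` with `S + E ⊆ E` and
`s + E ⊆ S` for some `s ∈ S`. -/
@[ext]
structure SIdeal (S : AddSubmonoid ℕ) where
  /-- the underlying set of integers -/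
  carrier : Set ℤ
  nonempty' : carrier.Nonempty
  add_mem' : ∀ s ∈ S, ∀ x ∈ carrier, (s : ℤ) + x ∈ carrier
  shift' : ∃ s ∈ S, ∀ x ∈ carrier, ∃ t ∈ S, (s : ℤ) + x = (t : ℤ)

/-- Addition of ideals: `I + J = {i + j : i ∈ I, j ∈ J}`. -/
instance (S : AddSubmonoid ℕ) : Add (SIdeal S) where
  add I J :=
    { carrier := I.carrier + J.carrier
      nonempty' := I.nonempty'.add J.nonempty'
      add_mem' := by
        rintro s hs _ ⟨x, hx, y, hy, rfl⟩
        exact ⟨(s : ℤ) + x, I.add_mem' s hs x hx, y, hy, by simp only; ring⟩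
      shift' := by
        obtain ⟨s, hs, h1⟩ := I.shift'
        obtain ⟨t, ht, h2⟩ := J.shift'
        refine ⟨s + t, S.add_mem hs ht, ?_⟩
        rintro _ ⟨x, hx, y, hy, rfl⟩
        obtain ⟨a, ha, h1'⟩ := h1 x hx
        obtain ⟨b, hb, h2'⟩ := h2 y hy
        refine ⟨a + b, S.add_mem ha hb, ?_⟩
        push_cast
        rw [← h1', ← h2']
        ring }

/-- The identity of the monoid of ideals is `S` itself. -/
instance (S : AddSubmonoid ℕ) : Zero (SIdeal S) where
  zero :=
    { carrier := {x : ℤ | ∃ s ∈ S, x = (s : ℤ)}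
      nonempty' := ⟨0, 0, S.zero_mem, by simp⟩
      add_mem' := by
        rintro s hs _ ⟨t, ht, rfl⟩
        exact ⟨s + t, S.add_mem hs ht, by push_cast; rfl⟩
      shift' := ⟨0, S.zero_mem, by
        rintro _ ⟨t, ht, rfl⟩
        exact ⟨t, ht, by simp⟩⟩ }

theorem add_carrier {S : AddSubmonoid ℕ} (I J : SIdeal S) :
    (I + J).carrier = I.carrier + J.carrier := rfl

theorem zero_carrier {S : AddSubmonoid ℕ} :
    (0 : SIdeal S).carrier = {x : ℤ | ∃ s ∈ S, x = (s : ℤ)} := rfl

/-- The commutative monoid of ideals of `S`. -/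
instance (S : AddSubmonoid ℕ) : AddCommMonoid (SIdeal S) where
  add_assoc I J K := by
    ext1; simp only [add_carrier]; exact add_assoc _ _ _
  add_comm I J := by
    ext1; simp only [add_carrier]; exact add_comm _ _
  zero_add I := by
    ext x
    simp only [add_carrier, zero_carrier]
    constructor
    · rintro ⟨_, ⟨s, hs, rfl⟩, y, hy, rfl⟩
      exact I.add_mem' s hs y hy
    · intro hx
      exact ⟨0, ⟨0, S.zero_mem, by simp⟩, x, hx, by simp⟩
  add_zero I := by
    ext x
    simp only [add_carrier, zero_carrier]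
    constructor
    · rintro ⟨y, hy, _, ⟨s, hs, rfl⟩, rfl⟩
      have := I.add_mem' s hs y hy
      simpa [add_comm] using this
    · intro hx
      exact ⟨x, hx, 0, ⟨0, S.zero_mem, by simp⟩, by simp⟩
  nsmul := nsmulRec

/-- The congruence `I ∼ J` iff `I = z + J` for some integer `z`. -/
def transCon (S : AddSubmonoid ℕ) : AddCon (SIdeal S) where
  r I J := ∃ z : ℤ, I.carrier = (fun x => z + x) '' J.carrier
  iseqv :=
    { refl := fun I => ⟨0, by simp⟩
      symm := by
        rintro I J ⟨z, hz⟩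
        refine ⟨-z, ?_⟩
        rw [hz, Set.image_image]
        simp
      trans := by
        rintro I J K ⟨z, hz⟩ ⟨w, hw⟩
        refine ⟨z + w, ?_⟩
        rw [hz, hw, Set.image_image]
        congr 1
        funext x
        ring }
  add' := by
    rintro I J K L ⟨z, hz⟩ ⟨w, hw⟩
    refine ⟨z + w, ?_⟩
    rw [add_carrier, add_carrier, hz, hw]
    ext x
    constructor
    · rintro ⟨_, ⟨a, ha, rfl⟩, _, ⟨b, hb, rfl⟩, rfl⟩
      exact ⟨a + b, ⟨a, ha, b, hb, rfl⟩, by simp only; ring⟩
    · rintro ⟨_, ⟨a, ha, b, hb, rfl⟩, rfl⟩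
      exact ⟨z + a, ⟨a, ha, rfl⟩, w + b, ⟨b, hb, rfl⟩, by simp only; ring⟩

/-- The ideal class monoid `Cl(S)`. -/
abbrev Cl (S : AddSubmonoid ℕ) : Type := (transCon S).Quotient

/-- The divisibility relation `a ⪯ b` of a commutative monoid: `b = a + c` for some `c`. -/
def Div {H : Type*} [AddCommMonoid H] (a b : H) : Prop := ∃ c, b = a + c

/-! ### Normalised ideals -/

/-- Normalised ideals: `E ⊆ ℕ`, `0 ∈ E`, `S + E ⊆ E`. -/
@[ext]
structure NI (S : AddSubmonoid ℕ) where
  carrier : Set ℕ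
  zero_mem' : 0 ∈ carrier
  add_mem' : ∀ s ∈ S, ∀ x ∈ carrier, s + x ∈ carrier

namespace NI

variable {S : AddSubmonoid ℕ}

/-- Divisibility of normalised ideals. -/
def Dv (E F : NI S) : Prop := ∃ K : NI S, F.carrier = E.carrier + K.carrier

theorem sub (E : NI S) : (S : Set ℕ) ⊆ E.carrier := fun s hs => by
  have := E.add_mem' s hs 0 E.zero_mem'
  simpa using this

theorem compl_finite (hS : ((S : Set ℕ)ᶜ).Finite) (E : NI S) : (E.carrierᶜ).Finite :=
  hS.subset (Set.compl_subset_compl.mpr E.sub)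

theorem Dv.subset {E F : NI S} (h : Dv E F) : E.carrier ⊆ F.carrier := by
  obtain ⟨K, hK⟩ := h
  intro x hx
  rw [hK]
  exact ⟨x, hx, 0, K.zero_mem', by simp⟩

end NI

/-! ### The counting lemma -/

section count

variable {S T : AddSubmonoid ℕ}

theorem NI.finite (hT : ((T : Set ℕ)ᶜ).Finite) : Finite (NI T) := by
  have hfin : {A : Set ℕ | A ⊆ (T : Set ℕ)ᶜ}.Finite := hT.finite_subsets
  have : Finite {A : Set ℕ | A ⊆ (T : Set ℕ)ᶜ} := hfin
  refine Finite.of_injective
    (fun E : NI T => (⟨E.carrierᶜ, Set.compl_subset_compl.mpr E.sub⟩ :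
      {A : Set ℕ | A ⊆ (T : Set ℕ)ᶜ})) ?_
  intro E F h
  have h1 : E.carrierᶜ = F.carrierᶜ := congrArg Subtype.val h
  exact NI.ext (compl_injective h1)

/-- One direction of the counting lemma. -/
theorem card_lt (hS : ((S : Set ℕ)ᶜ).Finite) (hT : ((T : Set ℕ)ᶜ).Finite) (x : ℕ)
    (hxS : x ∈ S) (hxT : x ∉ T) (hmin : ∀ y < x, y ∈ S ↔ y ∈ T)
    (hcard : ∀ j, Nat.card {E : NI S // (E.carrierᶜ).ncard = j} =
      Nat.card {E : NI T // (E.carrierᶜ).ncard = j}) : False := by
  set j : ℕ := ((S : Set ℕ) ∩ Set.Iio x).ncard with hj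
  -- a missing number of an `S`-ideal with `j` missing numbers is `< x`
  have key : ∀ E : NI S, (E.carrierᶜ).ncard = j → ∀ b, b ∉ E.carrier → b < x := by
    intro E hE b hb
    by_contra hbx
    push Not at hbx
    have hsub : (fun s => b - s) '' ((S : Set ℕ) ∩ Set.Iic x) ⊆ E.carrierᶜ := by
      rintro _ ⟨s, ⟨hs, hsx⟩, rfl⟩ hmem
      apply hb
      have h1 := E.add_mem' s hs (b - s) hmem
      have h2 : s + (b - s) = b := by
        have : s ≤ x := hsx
        omega
      rwa [h2] at h1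
    have hinj : Set.InjOn (fun s => b - s) ((S : Set ℕ) ∩ Set.Iic x) := by
      rintro s ⟨_, hs⟩ t ⟨_, ht⟩ hst
      have hs' : s ≤ x := hs
      have ht' : t ≤ x := ht
      simp only at hst
      omega
    have h1 : ((fun s => b - s) '' ((S : Set ℕ) ∩ Set.Iic x)).ncard =
        ((S : Set ℕ) ∩ Set.Iic x).ncard := hinj.ncard_image
    have h2 : (S : Set ℕ) ∩ Set.Iic x = insert x ((S : Set ℕ) ∩ Set.Iio x) := by
      ext y
      constructor
      · rintro ⟨hy, hyx⟩
        have hyx' : y ≤ x := hyx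
        rcases eq_or_lt_of_le hyx' with h | h
        · exact Or.inl h
        · exact Or.inr ⟨hy, h⟩
      · rintro (rfl | ⟨hy, hyx⟩)
        · exact ⟨hxS, Set.mem_Iic.mpr (le_refl _)⟩
        · exact ⟨hy, Set.mem_Iic.mpr (le_of_lt (Set.mem_Iio.mp hyx))⟩
    have hfin : ((S : Set ℕ) ∩ Set.Iio x).Finite := (Set.finite_Iio x).inter_of_right _
    have h3 : ((S : Set ℕ) ∩ Set.Iic x).ncard = j + 1 := by
      rw [h2, Set.ncard_insert_of_notMem _ hfin]
      rintro ⟨_, h⟩
      exact lt_irrefl _ (Set.mem_Iio.mp h)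
    have h4 := Set.ncard_le_ncard hsub (E.compl_finite hS)
    rw [h1, h3, hE] at h4
    omega
  -- every such `S`-ideal is a `T`-ideal
  let φ : {E : NI S // (E.carrierᶜ).ncard = j} → {E : NI T // (E.carrierᶜ).ncard = j} :=
    fun E => ⟨{ carrier := E.1.carrier
                zero_mem' := E.1.zero_mem'
                add_mem' := by
                  intro t ht e he
                  by_contra hb
                  have hlt := key E.1 E.2 _ hb
                  have hts : t ∈ S := (hmin t (by omega)).mpr ht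
                  exact hb (E.1.add_mem' t hts e he) }, E.2⟩
  have hφ : Function.Injective φ := by
    intro E F h
    have h1 : (φ E).1.carrier = (φ F).1.carrier := by rw [h]
    exact Subtype.ext (NI.ext h1)
  have hfinT : Finite (NI T) := NI.finite hT
  have hbij := hφ.bijective_of_nat_card_le (le_of_eq (hcard j).symm)
  -- the extra `T`-ideal
  have hz : (0 : ℕ) ∉ {n | ∃ t ∈ T, t ≤ x ∧ n = x - t} := by
    rintro ⟨t, ht, htx, h⟩
    have : t = x := by omega
    exact hxT (this ▸ ht)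
  let F : NI T :=
    { carrier := {n | ∃ t ∈ T, t ≤ x ∧ n = x - t}ᶜ
      zero_mem' := hz
      add_mem' := by
        rintro s hs e he ⟨t, ht, htx, h⟩
        exact he ⟨t + s, T.add_mem ht hs, by
          rcases Nat.eq_zero_or_pos e with h0 | h0
          · subst h0; omega
          · omega, by omega⟩ }
  have hFc : F.carrierᶜ = (fun t => x - t) '' ((S : Set ℕ) ∩ Set.Iio x) := by
    change ({n | ∃ t ∈ T, t ≤ x ∧ n = x - t}ᶜ)ᶜ = _
    rw [compl_compl]
    ext n
    constructor
    · rintro ⟨t, ht, htx, rfl⟩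
      have hne : t ≠ x := fun h => hxT (h ▸ ht)
      have hlt : t < x := lt_of_le_of_ne htx hne
      exact ⟨t, ⟨(hmin t hlt).mpr ht, hlt⟩, rfl⟩
    · rintro ⟨t, ⟨ht, htx⟩, rfl⟩
      exact ⟨t, (hmin t htx).mp ht, le_of_lt htx, rfl⟩
  have hFcard : (F.carrierᶜ).ncard = j := by
    rw [hFc]
    refine Set.InjOn.ncard_image ?_
    rintro s ⟨_, hs⟩ t ⟨_, ht⟩ hst
    have hs' : s < x := hs
    have ht' : t < x := ht
    simp only at hst
    omega
  obtain ⟨E, hE⟩ := hbij.2 ⟨F, hFcard⟩
  have h1 : E.1.carrier = F.carrier := by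
    have : (φ E).1.carrier = F.carrier := by rw [hE]
    exact this
  have hxF : x ∉ F.carrier := by
    change ¬ (x ∈ {n | ∃ t ∈ T, t ≤ x ∧ n = x - t}ᶜ)
    intro h
    exact h ⟨0, T.zero_mem, Nat.zero_le _, by simp⟩
  exact hxF (h1 ▸ E.1.sub hxS)

/-- A numerical semigroup is determined by the numbers of its normalised ideals missing exactly
`j` natural numbers. -/
theorem eq_of_card (hS : ((S : Set ℕ)ᶜ).Finite) (hT : ((T : Set ℕ)ᶜ).Finite)
    (hcard : ∀ j, Nat.card {E : NI S // (E.carrierᶜ).ncard = j} =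
      Nat.card {E : NI T // (E.carrierᶜ).ncard = j}) : S = T := by
  classical
  by_contra hne
  have hex : ∃ x, ¬ (x ∈ S ↔ x ∈ T) := by
    by_contra h
    push Not at h
    exact hne (by ext x; exact h x)
  let x := Nat.find hex
  have hx : ¬ (x ∈ S ↔ x ∈ T) := Nat.find_spec hex
  have hmin : ∀ y < x, (y ∈ S ↔ y ∈ T) := fun y hy => by
    have := Nat.find_min hex hy
    push Not at this
    exact this
  by_cases hxS : x ∈ S
  · have hxT : x ∉ T := fun h => hx ⟨fun _ => h, fun _ => hxS⟩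
    exact card_lt hS hT x hxS hxT hmin hcard
  · have hxT : x ∈ T := by
      by_contra h
      exact hx ⟨fun h' => absurd h' hxS, fun h' => absurd h' h⟩
    exact card_lt hT hS x hxT hxS (fun y hy => (hmin y hy).symm) (fun j => (hcard j).symm)

end count

/-! ### The chain invariant -/

/-- There is an `r`-chain `a = a₀, a₁, …, aₙ` of length `n` with consecutive members distinct. -/
def Chain {α : Type*} (r : α → α → Prop) : ℕ → α → Prop
  | 0, _ => True
  | n + 1, a => ∃ b, r a b ∧ a ≠ b ∧ Chain r n b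

theorem Chain.map {α β : Type*} {r : α → α → Prop} {s : β → β → Prop} (f : α ≃ β)
    (hf : ∀ a b, r a b ↔ s (f a) (f b)) (n : ℕ) (a : α) : Chain r n a ↔ Chain s n (f a) := by
  induction n generalizing a with
  | zero => simp [Chain]
  | succ n ih =>
    constructor
    · rintro ⟨b, h1, h2, h3⟩
      exact ⟨f b, (hf a b).mp h1, fun h => h2 (f.injective h), (ih b).mp h3⟩
    · rintro ⟨b, h1, h2, h3⟩
      refine ⟨f.symm b, ?_, ?_, ?_⟩
      · rw [hf]; simpa using h1
      · rintro rfl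
        simp at h2
      · rw [ih]; simpa using h3

section rank

variable {S : AddSubmonoid ℕ}

/-- Adding the largest missing number is a `⪯`-step. -/
theorem exists_step (hS : ((S : Set ℕ)ᶜ).Finite) (E : NI S) (hE : (E.carrierᶜ).Nonempty) :
    ∃ F : NI S, NI.Dv E F ∧ E ≠ F ∧ (F.carrierᶜ).ncard + 1 = (E.carrierᶜ).ncard := by
  have hfin := E.compl_finite hS
  obtain ⟨b, hb, hmax⟩ := Set.exists_max_image _ id hfin hE
  have hmax' : ∀ y, b < y → y ∈ E.carrier := by
    intro y hy
    by_contra h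
    exact absurd (hmax y h) (by simpa using hy)
  have hb0 : b ≠ 0 := fun h => hb (h ▸ E.zero_mem')
  have hFmem : ∀ s ∈ S, ∀ x ∈ insert b E.carrier, s + x ∈ insert b E.carrier := by
    rintro s hs x (rfl | hx)
    · rcases Nat.eq_zero_or_pos s with h | h
      · subst h; simp
      · exact Or.inr (hmax' _ (by omega))
    · exact Or.inr (E.add_mem' s hs x hx)
  let F : NI S := ⟨insert b E.carrier, Or.inr E.zero_mem', hFmem⟩
  let K : NI S :=
    { carrier := {n | n ∈ S ∨ ∃ s ∈ S, n = b + s}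
      zero_mem' := Or.inl S.zero_mem
      add_mem' := by
        rintro s hs x (hx | ⟨t, ht, rfl⟩)
        · exact Or.inl (S.add_mem hs hx)
        · exact Or.inr ⟨s + t, S.add_mem hs ht, by ring⟩ }
  refine ⟨F, ⟨K, ?_⟩, ?_, ?_⟩
  · ext y
    change y ∈ insert b E.carrier ↔ y ∈ E.carrier + {n | n ∈ S ∨ ∃ s ∈ S, n = b + s}
    constructor
    · rintro (rfl | hy)
      · exact ⟨0, E.zero_mem', y, Or.inr ⟨0, S.zero_mem, by simp⟩, by simp⟩
      · exact ⟨y, hy, 0, Or.inl S.zero_mem, by simp⟩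
    · rintro ⟨e, he, k, (hk | ⟨s, hs, rfl⟩), rfl⟩
      · right
        have := E.add_mem' k hk e he
        simpa [add_comm] using this
      · change e + (b + s) ∈ insert b E.carrier
        by_cases h : e + (b + s) = b
        · left; exact h
        · right; exact hmax' _ (by omega)
  · intro h
    have : b ∈ E.carrier := by
      rw [h]; exact Or.inl rfl
    exact hb this
  · have h1 : E.carrierᶜ = insert b (F.carrierᶜ) := by
      ext y
      change y ∉ E.carrier ↔ y = b ∨ ¬ (y = b ∨ y ∈ E.carrier)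
      constructor
      · intro hy
        by_cases h : y = b
        · exact Or.inl h
        · exact Or.inr (by rintro (h' | h') <;> contradiction)
      · rintro (rfl | h)
        · exact hb
        · exact fun hy => h (Or.inr hy)
    rw [h1, Set.ncard_insert_of_notMem _ (F.compl_finite hS)]
    intro h
    exact h (Or.inl rfl)

/-- The length of a longest strict chain starting at `E` is the number of missing numbers. -/
theorem chain_iff (hS : ((S : Set ℕ)ᶜ).Finite) (n : ℕ) (E : NI S) :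
    Chain NI.Dv n E ↔ n ≤ (E.carrierᶜ).ncard := by
  induction n generalizing E with
  | zero => simp [Chain]
  | succ n ih =>
    constructor
    · rintro ⟨F, h1, h2, h3⟩
      have h4 := (ih F).mp h3
      have hss : F.carrierᶜ ⊂ E.carrierᶜ := by
        refine ⟨Set.compl_subset_compl.mpr h1.subset, fun h => h2 ?_⟩
        have h5 : F.carrier ⊆ E.carrier := Set.compl_subset_compl.mp h
        exact NI.ext (Set.Subset.antisymm h1.subset h5)
      have := Set.ncard_lt_ncard hss (E.compl_finite hS)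
      omega
    · intro h
      have hne : (E.carrierᶜ).Nonempty := by
        rw [Set.nonempty_iff_ne_empty]
        intro h0
        rw [h0, Set.ncard_empty] at h
        omega
      obtain ⟨F, h1, h2, h3⟩ := exists_step hS E hne
      exact ⟨F, h1, h2, (ih F).mpr (by omega)⟩

end rank

/-! ### Transfer to the ideal class monoid -/

section transfer

variable {S : AddSubmonoid ℕ}

/-- The ideal of `S` given by a normalised ideal. -/
def NI.toIdeal (hS : ((S : Set ℕ)ᶜ).Finite) (E : NI S) : SIdeal S where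
  carrier := (fun n : ℕ => (n : ℤ)) '' E.carrier
  nonempty' := ⟨0, 0, E.zero_mem', by simp⟩
  add_mem' := by
    rintro s hs _ ⟨x, hx, rfl⟩
    exact ⟨s + x, E.add_mem' s hs x hx, by push_cast; rfl⟩
  shift' := by
    obtain ⟨c, hc⟩ := hS.bddAbove
    have hc' : ∀ n, c < n → n ∈ S := by
      intro n hn
      by_contra h
      exact absurd (hc h) (by omega)
    refine ⟨c + 1, hc' _ (by omega), ?_⟩
    rintro _ ⟨x, hx, rfl⟩
    exact ⟨c + 1 + x, hc' _ (by omega), by push_cast; ring⟩

/-- The class of a normalised ideal. -/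
def NI.toCl (hS : ((S : Set ℕ)ᶜ).Finite) (E : NI S) : Cl S := (E.toIdeal hS : Cl S)

theorem NI.toCl_eq_iff (hS : ((S : Set ℕ)ᶜ).Finite) (E F : NI S) :
    E.toCl hS = F.toCl hS ↔
      ∃ z : ℤ, (fun n : ℕ => (n : ℤ)) '' E.carrier =
        (fun x => z + x) '' ((fun n : ℕ => (n : ℤ)) '' F.carrier) :=
  AddCon.eq (transCon S)

theorem NI.toCl_injective (hS : ((S : Set ℕ)ᶜ).Finite) :
    Function.Injective (NI.toCl hS : NI S → Cl S) := by
  intro E F h
  rw [NI.toCl_eq_iff] at h
  obtain ⟨z, hz⟩ := h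
  have h0 : (0 : ℤ) ∈ (fun n : ℕ => (n : ℤ)) '' E.carrier := ⟨0, E.zero_mem', by simp⟩
  have hz1 : z ≤ 0 := by
    rw [hz] at h0
    obtain ⟨_, ⟨n, _, rfl⟩, h⟩ := h0
    simp only at h
    omega
  have hz2 : 0 ≤ z := by
    have : z + 0 ∈ (fun x => z + x) '' ((fun n : ℕ => (n : ℤ)) '' F.carrier) :=
      ⟨0, ⟨0, F.zero_mem', by simp⟩, rfl⟩
    rw [← hz] at this
    obtain ⟨n, _, h⟩ := this
    simp only at h
    omega
  have hz0 : z = 0 := le_antisymm hz1 hz2
  subst hz0
  have h1 : (fun n : ℕ => (n : ℤ)) '' E.carrier = (fun n : ℕ => (n : ℤ)) '' F.carrier := by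
    simpa using hz
  exact NI.ext ((Set.image_injective.mpr Nat.cast_injective) h1)

theorem NI.toCl_surjective (hS : ((S : Set ℕ)ᶜ).Finite) :
    Function.Surjective (NI.toCl hS : NI S → Cl S) := by
  intro a
  induction a using AddCon.induction_on with
  | H I =>
  obtain ⟨s, hs, hb⟩ := I.shift'
  have hlow : ∀ x ∈ I.carrier, -(s : ℤ) ≤ x := by
    intro x hx
    obtain ⟨t, _, ht⟩ := hb x hx
    omega
  obtain ⟨m, hm, hmin⟩ := Int.exists_least_of_bdd (P := fun x => x ∈ I.carrier)
    ⟨-(s : ℤ), hlow⟩ I.nonempty'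
  let E : NI S :=
    { carrier := {n : ℕ | m + (n : ℤ) ∈ I.carrier}
      zero_mem' := by
        change m + ((0 : ℕ) : ℤ) ∈ I.carrier
        simpa using hm
      add_mem' := by
        intro t ht x hx
        have hx' : m + (x : ℤ) ∈ I.carrier := hx
        have := I.add_mem' t ht _ hx'
        change m + ((t + x : ℕ) : ℤ) ∈ I.carrier
        have h2 : m + ((t + x : ℕ) : ℤ) = (t : ℤ) + (m + (x : ℤ)) := by push_cast; ring
        rw [h2]
        exact this }
  refine ⟨E, ?_⟩
  refine (AddCon.eq (transCon S)).mpr ⟨-m, ?_⟩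
  ext x
  constructor
  · rintro ⟨n, hn, rfl⟩
    exact ⟨m + (n : ℤ), hn, by simp⟩
  · rintro ⟨y, hy, rfl⟩
    have h1 := hmin y hy
    refine ⟨(y - m).toNat, ?_, ?_⟩
    · change m + (((y - m).toNat : ℕ) : ℤ) ∈ I.carrier
      have h2 : m + (((y - m).toNat : ℕ) : ℤ) = y := by omega
      rw [h2]
      exact hy
    · simp only
      omega

/-- The sum of two normalised ideals. -/
def NI.sum (E K : NI S) : NI S where
  carrier := E.carrier + K.carrier
  zero_mem' := ⟨0, E.zero_mem', 0, K.zero_mem', by simp⟩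
  add_mem' := by
    rintro s hs _ ⟨x, hx, y, hy, rfl⟩
    exact ⟨s + x, E.add_mem' s hs x hx, y, hy, by simp only; ring⟩

theorem NI.toIdeal_sum (hS : ((S : Set ℕ)ᶜ).Finite) (E K : NI S) :
    (E.sum K).toIdeal hS = E.toIdeal hS + K.toIdeal hS := by
  ext x
  constructor
  · rintro ⟨_, ⟨a, ha, b, hb, rfl⟩, rfl⟩
    exact ⟨a, ⟨a, ha, rfl⟩, b, ⟨b, hb, rfl⟩, by push_cast; rfl⟩
  · rintro ⟨_, ⟨a, ha, rfl⟩, _, ⟨b, hb, rfl⟩, rfl⟩
    exact ⟨a + b, ⟨a, ha, b, hb, rfl⟩, by push_cast; rfl⟩

theorem NI.toCl_sum (hS : ((S : Set ℕ)ᶜ).Finite) (E K : NI S) :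
    (E.sum K).toCl hS = E.toCl hS + K.toCl hS := by
  change (((E.sum K).toIdeal hS : SIdeal S) : Cl S) =
    ((E.toIdeal hS : SIdeal S) : Cl S) + ((K.toIdeal hS : SIdeal S) : Cl S)
  rw [NI.toIdeal_sum]
  rfl

theorem NI.dv_iff (hS : ((S : Set ℕ)ᶜ).Finite) (E F : NI S) :
    NI.Dv E F ↔ Div (E.toCl hS) (F.toCl hS) := by
  constructor
  · rintro ⟨K, hK⟩
    refine ⟨K.toCl hS, ?_⟩
    rw [← NI.toCl_sum]
    congr 1
    exact NI.ext hK
  · rintro ⟨c, hc⟩
    obtain ⟨K, rfl⟩ := NI.toCl_surjective hS c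
    rw [← NI.toCl_sum] at hc
    have := NI.toCl_injective hS hc
    exact ⟨K, congrArg NI.carrier this⟩

/-- Normalised ideals represent the classes bijectively. -/
noncomputable def NI.equivCl (hS : ((S : Set ℕ)ᶜ).Finite) : NI S ≃ Cl S :=
  Equiv.ofBijective (NI.toCl hS) ⟨NI.toCl_injective hS, NI.toCl_surjective hS⟩

end transfer

/-- **MP_6e7624_al, Q1, positive answer.**  Let `S₁`, `S₂` be numerical semigroups (submonoids of
`ℕ` with finite complement).  If there is a bijection `f` between their ideal class monoids with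
`a ⪯ b ↔ f a ⪯ f b`, where `a ⪯ b` means `b = a + c` for some `c`, then `S₁ = S₂`. -/
theorem result (S₁ S₂ : AddSubmonoid ℕ) (h₁ : ((S₁ : Set ℕ)ᶜ).Finite)
    (h₂ : ((S₂ : Set ℕ)ᶜ).Finite) (f : Cl S₁ ≃ Cl S₂)
    (hf : ∀ a b : Cl S₁, Div a b ↔ Div (f a) (f b)) : S₁ = S₂ := by
  let g : NI S₁ ≃ NI S₂ := ((NI.equivCl h₁).trans f).trans (NI.equivCl h₂).symm
  have hgf : ∀ E : NI S₁, (g E).toCl h₂ = f (E.toCl h₁) := by
    intro E
    have : (NI.equivCl h₂) (g E) = f ((NI.equivCl h₁) E) := by simp [g]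
    exact this
  have hg : ∀ E F : NI S₁, NI.Dv E F ↔ NI.Dv (g E) (g F) := by
    intro E F
    rw [NI.dv_iff h₁, NI.dv_iff h₂, hgf, hgf]
    exact hf _ _
  have hrank : ∀ E : NI S₁, (E.carrierᶜ).ncard = ((g E).carrierᶜ).ncard := by
    intro E
    have h : ∀ n, n ≤ (E.carrierᶜ).ncard ↔ n ≤ ((g E).carrierᶜ).ncard := by
      intro n
      rw [← chain_iff h₁, ← chain_iff h₂]
      exact Chain.map g hg n E
    exact le_antisymm ((h _).mp le_rfl) ((h _).mpr le_rfl)
  refine eq_of_card h₁ h₂ fun j => Nat.card_congr ?_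
  refine g.subtypeEquiv fun E => ?_
  rw [hrank E]

end Pool.Agent.Results.MP_6e7624_al.PosetDeterminesSemigroup
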